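import Pool.Agent.Helper49.SE.Stm2

/-!
# Package GLOB: resolutions in terms of the functions on affine open subsets
-/

set_option autoImplicit false
set_option linter.unusedSectionVars false

open AlgebraicGeometry CategoryTheory Pool.Agent.T6.H74.GC

namespace Pool.Agent.Helper33.SE

open Pool.Agent.Helper49.SE

lemma sup_toSubring {k K : Type} [Field k] [Field K] [Algebra k K] (S R : Subalgebra k K) :
    (S ⊔ R).toSubring = S.toSubring ⊔ R.toSubring := by
  refine le_antisymm ?_ (sup_le ?_ ?_)
  · let T : Subalgebra k K :=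
      { (S.toSubring ⊔ R.toSubring) with
        algebraMap_mem' := fun r =>
          (le_sup_left : S.toSubring ≤ S.toSubring ⊔ R.toSubring) (S.algebraMap_mem r) }
    have h1 : S ⊔ R ≤ T := by
      refine sup_le ?_ ?_
      · intro x hx
        exact (le_sup_left : S.toSubring ≤ S.toSubring ⊔ R.toSubring) hx
      · intro x hx
        exact (le_sup_right : R.toSubring ≤ S.toSubring ⊔ R.toSubring) hx
    intro x hx
    exact h1 hx
  · intro x hx
    exact (le_sup_left : S ≤ S ⊔ R) hx
  · intro x hx
    exact (le_sup_right : R ≤ S ⊔ R) hx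

theorem glob (hRes : ResStm) : GlobStm := by
  intro k K _ _ _ ι _ z hz T hT A₀ hV X f _ _ _ φ hφ hloc
  refine hRes k K ι z X f (gpt φ) (gpt_comp f φ hφ) hz T hT fun x => ?_
  obtain ⟨U, hU, hxU, R, hA, hR, hsm⟩ := hloc x
  obtain ⟨β, hβ, hβr⟩ := isAff_of_isAffineOpen φ hU hxU
  have hr : (β.range : Set K) = R := hβr.trans hR
  have hr2 : β.range = R.toSubring := SetLike.coe_injective hr
  refine ⟨Γ(X, U), inferInstance, β, hU.fromSpec, hβ, ?_, fun V hyV => hV V fun a ha => ?_,
    fun t ht => ⟨_, hsm t ht, ?_⟩⟩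
  · rw [hU.range_fromSpec]
    exact hxU
  · have h1 : a ∈ (β.range : Set K) := by
      rw [hr]
      exact hA ha
    obtain ⟨y, rfl⟩ := h1
    exact hyV y
  · rw [sup_toSubring, hr2]

end Pool.Agent.Helper33.SE
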