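import Pool.Agent.Helper49.SE.El0

/-!
# Package INERTIA: the inertia groups of the points of a chart
-/

set_option autoImplicit false
set_option linter.unusedSectionVars false

namespace Pool.Agent.Helper33.SE

open MvPolynomial Pool.Agent.W559.Mg Pool.Agent.W559.Et Pool.Agent.Helper49.SQ
  Pool.Agent.Helper49.SE

section loc

variable {k K : Type} [Field k] [Field K] [Algebra k K] {B : Subalgebra k K} {q : Ideal B}

/-- the maximal ideal of the local ring -/
def mx (B : Subalgebra k K) (q : Ideal B) : Set K :=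
  {x | ∃ a b : B, b ∉ q ∧ a ∈ q ∧ x * b = a}

lemma ne_zero_of_notMem {b : B} (hb : b ∉ q) : (b : K) ≠ 0 := by
  intro h
  apply hb
  have : b = 0 := Subtype.ext h
  rw [this]
  exact q.zero_mem

lemma one_notMem (hq : q.IsPrime) : (1 : B) ∉ q :=
  fun h => hq.ne_top ((Ideal.eq_top_iff_one q).2 h)

lemma B_le (hq : q.IsPrime) {x : K} (hx : x ∈ B) : x ∈ locR B q hq :=
  ⟨⟨x, hx⟩, 1, one_notMem hq, by simp⟩

lemma inv_mem (hq : q.IsPrime) {b : B} (hb : b ∉ q) : (b : K)⁻¹ ∈ locR B q hq :=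
  ⟨1, b, hb, by rw [inv_mul_cancel₀ (ne_zero_of_notMem hb)]; rfl⟩

lemma mx_le (hq : q.IsPrime) {x : K} (hx : x ∈ mx B q) : x ∈ locR B q hq := by
  obtain ⟨a, b, hb, _, h⟩ := hx
  exact ⟨a, b, hb, h⟩

lemma mx_of_q (hq : q.IsPrime) {a : B} (ha : a ∈ q) : (a : K) ∈ mx B q :=
  ⟨a, 1, one_notMem hq, ha, by simp⟩

lemma mx_add (hq : q.IsPrime) {x y : K} (hx : x ∈ mx B q) (hy : y ∈ mx B q) :
    x + y ∈ mx B q := by
  obtain ⟨a, b, hb, ha, h⟩ := hx
  obtain ⟨a', b', hb', ha', h'⟩ := hy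
  refine ⟨a * b' + a' * b, b * b', hq.mul_notMem hb hb',
    q.add_mem (q.mul_mem_right _ ha) (q.mul_mem_right _ ha'), ?_⟩
  push_cast
  rw [← h, ← h']
  ring

lemma mx_mul (hq : q.IsPrime) {x y : K} (hx : x ∈ locR B q hq) (hy : y ∈ mx B q) :
    x * y ∈ mx B q := by
  obtain ⟨a, b, hb, h⟩ := hx
  obtain ⟨a', b', hb', ha', h'⟩ := hy
  refine ⟨a * a', b * b', hq.mul_notMem hb hb', q.mul_mem_left _ ha', ?_⟩
  push_cast
  rw [← h, ← h']
  ring

lemma mx_zero (hq : q.IsPrime) : (0 : K) ∈ mx B q :=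
  ⟨0, 1, one_notMem hq, q.zero_mem, by simp⟩

lemma mx_ne (hq : q.IsPrime) {x x' : K} (hx : x ∈ mx B q) (hx' : x' ∈ locR B q hq) :
    x * x' ≠ 1 := by
  intro h1
  obtain ⟨a, b, hb, ha, h⟩ := hx
  obtain ⟨a', b', hb', h'⟩ := hx'
  have h2 : b * b' = a * a' := by
    refine Subtype.ext ?_
    push_cast
    rw [← h, ← h']
    linear_combination (-(b : K) * b') * h1
  exact hq.mul_notMem hb hb' (h2 ▸ q.mul_mem_right _ ha)

lemma unit_of (hq : q.IsPrime) {x : K} (hx : x ∈ locR B q hq) (hn : x ∉ mx B q) :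
    x ≠ 0 ∧ x⁻¹ ∈ locR B q hq := by
  obtain ⟨a, b, hb, h⟩ := hx
  have ha : a ∉ q := fun ha => hn ⟨a, b, hb, ha, h⟩
  have h0 : x ≠ 0 := by
    rintro rfl
    rw [zero_mul] at h
    exact ne_zero_of_notMem ha h.symm
  refine ⟨h0, b, a, ha, ?_⟩
  rw [← h, inv_mul_cancel_left₀ h0]

lemma mx_of_ne (hq : q.IsPrime) {x : K} (hx : x ∈ locR B q hq)
    (h : ∀ x' ∈ locR B q hq, x * x' ≠ 1) : x ∈ mx B q := by
  by_contra hn
  obtain ⟨h0, h1⟩ := unit_of hq hx hn
  exact h _ h1 (mul_inv_cancel₀ h0)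

lemma mem_q (hq : q.IsPrime) {x : K} (hx : x ∈ mx B q) (hxB : x ∈ B) : (⟨x, hxB⟩ : B) ∈ q := by
  obtain ⟨a, b, hb, ha, h⟩ := hx
  have h1 : (⟨x, hxB⟩ : B) * b = a := Subtype.ext h
  exact (hq.mem_or_mem (h1 ▸ ha : (⟨x, hxB⟩ : B) * b ∈ q)).resolve_right hb

/-- an automorphism which maps `B` into the local ring and is trivial modulo the maximal ideal on
`B` is in the inertia group -/
lemma inG_of {G : Type} [Group G] (ρ : G →* (K ≃ₐ[k] K)) (g : G) (hq : q.IsPrime)
    (h : ∀ b ∈ B, ρ g b - b ∈ mx B q) : InG ρ (locR B q hq) g := by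
  have hO : ∀ b ∈ B, ρ g b ∈ locR B q hq := by
    intro b hb
    have := (locR B q hq).add_mem (mx_le hq (h b hb)) (B_le hq hb)
    rwa [sub_add_cancel] at this
  intro x hx
  obtain ⟨a, b, hb, hab⟩ := hx
  have hb0 := ne_zero_of_notMem hb
  have hbn : ρ g (b : K) ∉ mx B q := by
    intro hmem
    have h1 : (b : K) ∈ mx B q := by
      have h2 := mx_add hq hmem (mx_mul hq ((locR B q hq).neg_mem
        (locR B q hq).one_mem) (h b b.2))
      have h3 : ρ g (b : K) + -1 * (ρ g (b : K) - b) = b := by ring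
      rwa [h3] at h2
    exact hb (mem_q hq h1 b.2)
  obtain ⟨hg0, hginv⟩ := unit_of hq (hO b b.2) hbn
  have hx1 : x = a * (b : K)⁻¹ := by
    rw [← hab, mul_inv_cancel_right₀ hb0]
  have hgx : ρ g x = ρ g (a : K) * (ρ g (b : K))⁻¹ := by
    rw [hx1, map_mul, map_inv₀]
  have hmem : ρ g x ∈ locR B q hq := by
    rw [hgx]
    exact (locR B q hq).mul_mem (hO a a.2) hginv
  refine ⟨hmem, fun x' hx' => mx_ne hq ?_ hx'⟩
  have h1 : ρ g x - x = (ρ g (b : K))⁻¹ * (ρ g (a : K) - a) +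
      (-(ρ g (b : K))⁻¹ * (a * (b : K)⁻¹)) * (ρ g (b : K) - b) := by
    rw [hgx, hx1]
    field_simp
    ring
  rw [h1]
  refine mx_add hq (mx_mul hq hginv (h a a.2)) (mx_mul hq ?_ (h b b.2))
  exact (locR B q hq).mul_mem ((locR B q hq).neg_mem hginv)
    ((locR B q hq).mul_mem (B_le hq a.2) (inv_mem hq hb))

end loc

section main

variable {k K : Type} [Field k] [Field K] [Algebra k K] {N : ℕ} {A : Subalgebra k K}
  {z : Fin (N + 1) → K}

lemma gen_mem (j i : Fin (N + 1)) : z i / z j ∈ Ch A z j :=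
  (le_sup_right : Algebra.adjoin k (Set.range fun i => z i / z j) ≤ Ch A z j)
    (Algebra.subset_adjoin ⟨i, rfl⟩)

lemma A_mem (j : Fin (N + 1)) {a : K} (ha : a ∈ A) : a ∈ Ch A z j :=
  (le_sup_left : A ≤ Ch A z j) ha

lemma span_mem (j : Fin (N + 1)) {x : K} (hx : x ∈ Submodule.span k (Set.range z)) :
    x / z j ∈ Ch A z j := by
  induction hx using Submodule.span_induction with
  | mem x hx => obtain ⟨i, rfl⟩ := hx; exact gen_mem j i
  | zero => rw [zero_div]; exact (Ch A z j).zero_mem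
  | add x y _ _ hx hy => rw [add_div]; exact (Ch A z j).add_mem hx hy
  | smul t x _ hx => rw [smul_div_assoc]; exact (Ch A z j).smul_mem hx t

variable {G : Type} [Group G]

lemma rho_inv (ρ : G →* (K ≃ₐ[k] K)) (g : G) (x : K) : ρ g (ρ g⁻¹ x) = x := by
  rw [← AlgEquiv.mul_apply, ← map_mul, mul_inv_cancel, map_one, AlgEquiv.one_apply]

end main

theorem inCh : InChStm := by
  intro k K _ _ _ N A z G _ _ ρ hA j q hq g
  have hzj := hA.z0 j
  have hu : ρ g (z j) / z j ∈ Ch A z j := span_mem j (hA.lin g j)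
  have hgz : ρ g (z j) ≠ 0 := by
    rw [Ne, map_eq_zero_iff _ (ρ g).injective]
    exact hzj
  have hw : ∀ i, ρ g (z i) / z j - z i / z j * (ρ g (z j) / z j) ∈ Ch A z j := fun i =>
    (Ch A z j).sub_mem (span_mem j (hA.lin g i)) ((Ch A z j).mul_mem (gen_mem j i) hu)
  constructor
  · intro h
    constructor
    · intro i hi
      refine mem_q hq ?_ hi
      have h1 := h (z i / z j) (B_le hq (gen_mem j i))
      have h2 : ρ g (z i / z j) - z i / z j ∈ mx (Ch A z j) q :=
        mx_of_ne hq ((locR (Ch A z j) q hq).sub_mem h1.1 (B_le hq (gen_mem j i))) h1.2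
      have h3 := mx_mul hq (B_le hq hu) h2
      have h4 : ρ g (z j) / z j * (ρ g (z i / z j) - z i / z j) =
          ρ g (z i) / z j - z i / z j * (ρ g (z j) / z j) := by
        rw [map_div₀]
        field_simp
      rwa [h4] at h3
    · intro a ha hi
      refine mem_q hq ?_ hi
      have h1 := h a (B_le hq (A_mem j ha))
      exact mx_of_ne hq (B_le hq hi) h1.2
  · rintro ⟨h1, h2⟩
    have hw2 : ∀ i, ρ g (z i) / z j - z i / z j * (ρ g (z j) / z j) ∈ mx (Ch A z j) q :=
      fun i => mx_of_q hq (h1 i (hw i))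
    -- the unit
    have hun : ρ g (z j) / z j ∉ mx (Ch A z j) q := by
      intro hmem
      have h3 : ∀ i, ρ g (z i) / z j ∈ mx (Ch A z j) q := by
        intro i
        have h4 := mx_add hq (hw2 i) (mx_mul hq (B_le hq (gen_mem j i)) hmem)
        rwa [sub_add_cancel] at h4
      have h4 : ∀ x ∈ Submodule.span k (Set.range z), ρ g x / z j ∈ mx (Ch A z j) q := by
        intro x hx
        induction hx using Submodule.span_induction with
        | mem x hx => obtain ⟨i, rfl⟩ := hx; exact h3 i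
        | zero => rw [map_zero, zero_div]; exact mx_zero hq
        | add x y _ _ hx hy => rw [map_add, add_div]; exact mx_add hq hx hy
        | smul t x _ hx =>
          rw [map_smul, smul_div_assoc, Algebra.smul_def]
          exact mx_mul hq ((locR (Ch A z j) q hq).algebraMap_mem t) hx
      have h5 := h4 _ (hA.lin g⁻¹ j)
      rw [rho_inv, div_self hzj] at h5
      exact mx_ne hq h5 (locR (Ch A z j) q hq).one_mem (one_mul 1)
    obtain ⟨hu0, huinv⟩ := unit_of hq (B_le hq hu) hun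
    have hgen : ∀ i, ρ g (z i / z j) - z i / z j ∈ mx (Ch A z j) q := by
      intro i
      have h3 := mx_mul hq huinv (hw2 i)
      have h4 : (ρ g (z j) / z j)⁻¹ * (ρ g (z i) / z j - z i / z j * (ρ g (z j) / z j)) =
          ρ g (z i / z j) - z i / z j := by
        rw [map_div₀]
        field_simp
      rwa [h4] at h3
    have hAm : ∀ a ∈ A, ρ g a - a ∈ mx (Ch A z j) q := fun a ha =>
      mx_of_q hq (h2 a ha ((Ch A z j).sub_mem (A_mem j (hA.A g a ha)) (A_mem j ha)))
    -- the subalgebra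
    let T : Subalgebra k K :=
      { carrier := {x | x ∈ locR (Ch A z j) q hq ∧ ρ g x - x ∈ mx (Ch A z j) q}
        mul_mem' := by
          rintro x y ⟨hx1, hx2⟩ ⟨hy1, hy2⟩
          refine ⟨(locR (Ch A z j) q hq).mul_mem hx1 hy1, ?_⟩
          have hgy : ρ g y ∈ locR (Ch A z j) q hq := by
            have := (locR (Ch A z j) q hq).add_mem (mx_le hq hy2) hy1
            rwa [sub_add_cancel] at this
          have h3 := mx_add hq (mx_mul hq hgy hx2) (mx_mul hq hx1 hy2)
          have h4 : ρ g y * (ρ g x - x) + x * (ρ g y - y) = ρ g (x * y) - x * y := by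
            rw [map_mul]
            ring
          rwa [h4] at h3
        add_mem' := by
          rintro x y ⟨hx1, hx2⟩ ⟨hy1, hy2⟩
          refine ⟨(locR (Ch A z j) q hq).add_mem hx1 hy1, ?_⟩
          have h3 := mx_add hq hx2 hy2
          have h4 : ρ g x - x + (ρ g y - y) = ρ g (x + y) - (x + y) := by
            rw [map_add]
            ring
          rwa [h4] at h3
        algebraMap_mem' := fun r => ⟨(locR (Ch A z j) q hq).algebraMap_mem r, by
          rw [AlgEquiv.commutes, sub_self]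
          exact mx_zero hq⟩ }
    have hT : Ch A z j ≤ T := by
      refine sup_le ?_ (Algebra.adjoin_le ?_)
      · intro a ha
        exact ⟨B_le hq (A_mem j ha), hAm a ha⟩
      · rintro _ ⟨i, rfl⟩
        exact ⟨B_le hq (gen_mem j i), hgen i⟩
    exact inG_of ρ g hq fun b hb => (hT hb).2

theorem inNear : InNearStm := by
  intro k K _ _ _ N A z G _ _ ρ hA j q hq
  classical
  have : Fintype G := Fintype.ofFinite G
  have key : ∀ g : G, ∃ e : Ch A z j, e ∉ q ∧ ∀ (q' : Ideal (Ch A z j)) (hq' : q'.IsPrime),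
      e ∉ q' → InG ρ (locR (Ch A z j) q' hq') g → InG ρ (locR (Ch A z j) q hq) g := by
    intro g
    by_cases hg : InG ρ (locR (Ch A z j) q hq) g
    · exact ⟨1, one_notMem hq, fun _ _ _ _ => hg⟩
    · have h1 := mt (inCh k K N A z G ρ hA j q hq g).2 hg
      rw [not_and_or] at h1
      rcases h1 with h1 | h1
      · push Not at h1
        obtain ⟨i, hi, hn⟩ := h1
        refine ⟨⟨_, hi⟩, hn, fun q' hq' hne hin => ?_⟩
        exact (hne (((inCh k K N A z G ρ hA j q' hq' g).1 hin).1 i hi)).elim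
      · push Not at h1
        obtain ⟨a, ha, hi, hn⟩ := h1
        refine ⟨⟨_, hi⟩, hn, fun q' hq' hne hin => ?_⟩
        exact (hne (((inCh k K N A z G ρ hA j q' hq' g).1 hin).2 a ha hi)).elim
  choose e he1 he2 using key
  refine ⟨((∏ g, e g : Ch A z j) : K), (∏ g, e g : Ch A z j).2, ?_, ?_⟩
  · intro hmem
    obtain ⟨g, _, hg⟩ := hq.prod_mem_iff.1 (hmem : (∏ g, e g : Ch A z j) ∈ q)
    exact he1 g hg
  · intro q' hq' hne g hg
    refine he2 g q' hq' (fun h => hne ?_) hg
    exact hq'.prod_mem_iff.2 ⟨g, Finset.mem_univ g, h⟩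

end Pool.Agent.Helper33.SE
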