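import Pool.Agent.Helper49.SE.El1
import Pool.Graph.R_seed8.W338.ET.Spread

/-!
# Package SPREAD2: etale coordinates near a point (after W338.ET.Spread)
-/

set_option autoImplicit false
set_option linter.unusedSectionVars false

namespace Pool.Agent.Helper33.SE

open MvPolynomial Pool.Agent.W559.Mg Pool.Agent.W559.Et Pool.Agent.Helper49.SQ
  Pool.Agent.Helper49.SE Pool.Agent.W338.ET

/-- The localization of an algebra of finite type is of finite type. -/
lemma finiteType_lc' {k K : Type} [Field k] [Field K] [Algebra k K] (C : Subalgebra k K)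
    (hft : Algebra.FiniteType k C) (f : K) (hf : f ∈ C)
    (hf0 : f ≠ 0) : Algebra.FiniteType k (lc C f hf) := by
  let _ : Algebra C (lc C f hf) := (Subalgebra.inclusion (le_lc C f hf)).toRingHom.toAlgebra
  have _ : IsScalarTower k C (lc C f hf) := IsScalarTower.of_algebraMap_eq fun r => rfl
  have h0 : IsLocalization.Away (⟨f, hf⟩ : C) (lc C f hf) := isLoc_lc C hf (Ne.isUnit hf0)
  have h1 : Algebra.FiniteType C (lc C f hf) :=
    IsLocalization.finiteType_of_monoid_fg (Submonoid.powers (⟨f, hf⟩ : C)) _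
  exact Algebra.FiniteType.trans hft h1

theorem spreadG2 : SpreadG2Stm := by
  classical
  intro k L _ _ _ G _ ρ B hB q hq hlin
  have hne : ∀ c : B, c ∉ q → (c : L) ≠ 0 := fun c hc h => hc (by
    have : c = 0 := Subtype.ext h
    rw [this]
    exact q.zero_mem)
  obtain ⟨O, hO⟩ : ∃ O : Subalgebra k L, O = locR B q hq := ⟨_, rfl⟩
  have memO : ∀ x : L, x ∈ O ↔ ∃ a b : B, b ∉ q ∧ x * b = a := fun x => by
    rw [hO]
    exact Iff.rfl
  rw [← hO] at hlin
  obtain ⟨n, y, hyet, hyρ⟩ := hlin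
  -- common denominator
  have hden : ∀ i : Fin n, ∃ a b : B, b ∉ q ∧ (y i : L) * b = a := fun i => (memO _).1 (y i).2
  choose ya yb hyb hyab using hden
  obtain ⟨g, hg⟩ : ∃ g : B, g = ∏ i, yb i := ⟨_, rfl⟩
  have hgq : g ∉ q := by
    rw [hg]
    refine Finset.prod_induction yb (fun z => z ∉ q) (fun a b ha hb => hq.mul_notMem ha hb)
      (fun h => hq.ne_top ((Ideal.eq_top_iff_one q).2 h)) fun i _ => hyb i
  have hyg : ∀ i, (y i : L) * g ∈ B := by
    intro i
    rw [hg, ← Finset.mul_prod_erase _ _ (Finset.mem_univ i)]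
    push_cast
    rw [← mul_assoc, hyab]
    exact B.mul_mem (ya i).2 (B.prod_mem fun j _ => (yb j).2)
  have hBO : B ≤ O := fun x hx => (memO x).2 ⟨⟨x, hx⟩, 1, fun h =>
    hq.ne_top ((Ideal.eq_top_iff_one q).2 h), by simp⟩
  have hinvO : ∀ b : B, b ∉ q → ((b : L))⁻¹ ∈ O := fun b hb => (memO _).2 ⟨1, b, hb, by
    rw [inv_mul_cancel₀ (hne b hb)]
    rfl⟩
  have hunitB : ∀ b : B, ((b : L))⁻¹ ∈ O → (b : L) ≠ 0 → b ∉ q := by
    intro b hb hb0 hbq
    obtain ⟨a', b', hb', hab'⟩ := (memO _).1 hb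
    apply hb'
    have : b' = b * a' := by
      apply Subtype.ext
      show (b' : L) = b * a'
      rw [← hab', ← mul_assoc, mul_inv_cancel₀ hb0, one_mul]
    rw [this]
    exact q.mul_mem_right _ hbq
  -- the local ring
  have hOloc : IsLocalRing O := by
    let _ : Algebra B O := (Subalgebra.inclusion hBO).toRingHom.toAlgebra
    have : IsLocalization.AtPrime O q := by
      refine (isLocalization_iff q.primeCompl O).2 ⟨fun s => ?_, fun z => ?_, ?_⟩
      · refine IsUnit.of_mul_eq_one ⟨_, hinvO s s.2⟩ (Subtype.ext ?_)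
        exact mul_inv_cancel₀ (hne s s.2)
      · obtain ⟨a, b, hb, hz⟩ := (memO z).1 z.2
        exact ⟨(a, ⟨b, hb⟩), Subtype.ext hz⟩
      · intro x x' hx
        have h1 : (x : L) = x' := congrArg (fun z : O => (z : L)) hx
        exact ⟨1, by rw [Subtype.ext h1]⟩
    exact IsLocalization.AtPrime.isLocalRing O q
  obtain ⟨S, hS⟩ : ∃ S : Subalgebra k L, S = lc B (g : L) g.2 := ⟨_, rfl⟩
  have memS : ∀ x : L, x ∈ S ↔ ∃ m : ℕ, (g : L) ^ m * x ∈ B := fun x => by
    rw [hS]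
    exact Iff.rfl
  have hBS : B ≤ S := by
    rw [hS]
    exact le_lc _ _ _
  have hSfp : Algebra.FinitePresentation k S := by
    have h1 : Algebra.FiniteType k S := by
      rw [hS]
      exact finiteType_lc' B ((Subalgebra.fg_iff_finiteType B).1 hB) g g.2 (hne g hgq)
    exact Algebra.FinitePresentation.of_finiteType.1 h1
  have hpow : ∀ (m : ℕ) (b : B), b ∉ q → b ^ m ∉ q := fun m b hb h => hb (hq.mem_of_pow_mem m h)
  have hSO : S ≤ O := by
    intro x hx
    obtain ⟨m, hm⟩ := (memS x).1 hx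
    refine (memO x).2 ⟨⟨_, hm⟩, g ^ m, hpow m g hgq, ?_⟩
    push_cast
    ring
  have hyS : ∀ i, (y i : L) ∈ S := fun i => (memS _).2 ⟨1, by
    rw [pow_one, mul_comm]
    exact hyg i⟩
  obtain ⟨f1, hf1S, hf10, hf1i, hall⟩ := step1 S O hSO hSfp y hyS hyet (by
    intro z hz
    obtain ⟨a, b, hb, hab⟩ := (memO z).1 hz
    exact ⟨a, hBS a.2, b, hBS b.2, hne b hb, hinvO b hb, hab⟩)
  obtain ⟨j, hj⟩ := (memS f1).1 hf1S
  -- the element of `B`
  obtain ⟨w, hw⟩ : ∃ w : B, w = g * ⟨_, hj⟩ := ⟨_, rfl⟩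
  have hwv : (w : L) = g * ((g : L) ^ j * f1) := by rw [hw]; rfl
  have hwq : w ∉ q := by
    rw [hw]
    refine hq.mul_notMem hgq (hunitB _ ?_ ?_)
    · show ((g : L) ^ j * f1)⁻¹ ∈ O
      rw [mul_inv]
      refine O.mul_mem ?_ hf1i
      have := hinvO (g ^ j) (hpow j g hgq)
      push_cast at this
      exact this
    · exact mul_ne_zero (pow_ne_zero _ (hne g hgq)) hf10
  have hSA : S ≤ lc B (w : L) w.2 := by
    intro x hx
    obtain ⟨m, hm⟩ := (memS x).1 hx
    refine ⟨m, ?_⟩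
    have e1 : (w : L) ^ m * x = ((g : L) ^ j * f1) ^ m * ((g : L) ^ m * x) := by
      rw [hwv, mul_pow, mul_pow]
      ring
    rw [e1]
    exact B.mul_mem (B.pow_mem hj m) hm
  have het := hall (w : L) ((g : L) * (g : L) ^ j)
    (S.mul_mem (hBS g.2) (S.pow_mem (hBS g.2) j)) (by
      rw [hwv]
      ring) (hne w hwq) (lc B (w : L) w.2) hSA
    (inv_mem_lc B _ _ w.2 (mul_inv_cancel₀ (hne w hwq))) (by
      rintro z ⟨m, hm⟩
      exact ⟨m, hBS hm⟩)
  exact ⟨w, w.2, n, fun i => ⟨y i, hSA (hyS i)⟩, hwq, het, fun h hh i => hyρ h (hO ▸ hh) i⟩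

end Pool.Agent.Helper33.SE
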